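import Pool.Agent.H24.RCN.Targets

/-!
# Row UNA of rct_modules: Kummer extensions are unramified outside the exponent
-/

set_option autoImplicit false

open NumberField Pool.Agent.H24.RCN

namespace Pool.Agent.H51.RCN

theorem pf_UNA (h : T_EZ) : T_UNA := by
  intro F L _ _ _ _ _ κ σ z B A hκ hz hB hσ hBA Q hQ hκQ
  have hinj : Function.Injective (algebraMap (𝓞 F) (𝓞 L)) :=
    FaithfulSMul.algebraMap_injective (𝓞 F) (𝓞 L)
  -- the image of the root of unity
  have hz1 : algebraMap (𝓞 F) (𝓞 L) z - 1 ∉ Q := by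
    intro hq
    by_cases h2 : κ = 2
    · subst h2
      have h3 : z = -1 := hz.eq_neg_one_of_two_right
      rw [h3, map_neg, map_one] at hq
      refine hκQ ?_
      have h4 := Q.neg_mem hq
      have h5 : ((2 : ℕ) : 𝓞 L) = - (-1 - 1) := by push_cast; ring
      rw [h5]
      exact h4
    · obtain ⟨e, he⟩ := h F κ z hκ h2 hz
      refine hκQ ?_
      have h3 : ((κ : ℕ) : 𝓞 L) = algebraMap (𝓞 F) (𝓞 L) e *
          (algebraMap (𝓞 F) (𝓞 L) z - 1) ^ (κ - 1) := by
        have h4 := congrArg (algebraMap (𝓞 F) (𝓞 L)) he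
        rw [map_natCast, map_mul, map_pow, map_sub, map_one] at h4
        exact h4
      rw [h3]
      have h4 : κ - 1 = (κ - 2) + 1 := by
        have := hκ.two_le
        omega
      rw [h4, pow_succ, ← mul_assoc]
      exact Q.mul_mem_left _ hq
  have hA0 : A ≠ ⊥ := by
    rintro rfl
    rw [Ideal.map_bot, Ideal.span_singleton_eq_bot] at hBA
    exact hB hBA
  set l := Ideal.comap (algebraMap (𝓞 F) (𝓞 L)) Q with hl
  have hlt : ¬ A ≤ A * l := by
    intro hle
    have h1 : A * l = A * 1 := by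
      rw [mul_one]
      exact le_antisymm (le_trans Ideal.mul_le_inf inf_le_left) hle
    have h2 : l = 1 := mul_left_cancel₀ (by simpa using hA0) h1
    have h3 : l ≠ ⊤ := Ideal.comap_ne_top _ hQ.ne_top
    exact h3 (by rw [h2, Ideal.one_eq_top])
  obtain ⟨a, haA, haAl⟩ := Set.not_subset.1 hlt
  have ha0 : a ≠ 0 := by
    rintro rfl
    exact haAl (A * l).zero_mem
  have hdvd : A ∣ Ideal.span {a} := Ideal.dvd_iff_le.2 (by
    rw [Ideal.span_singleton_le_iff_mem]
    exact haA)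
  obtain ⟨C, hC⟩ := hdvd
  have hCl : ¬ C ≤ l := by
    intro hle
    refine haAl ?_
    have h1 : a ∈ A * C := by
      rw [← hC]
      exact Ideal.mem_span_singleton_self a
    exact Ideal.mul_mono_right hle h1
  obtain ⟨s, hsC, hsl⟩ := Set.not_subset.1 hCl
  have hmap : Ideal.span {algebraMap (𝓞 F) (𝓞 L) a} = Ideal.map (algebraMap (𝓞 F) (𝓞 L)) A *
      Ideal.map (algebraMap (𝓞 F) (𝓞 L)) C := by
    rw [← Ideal.map_mul, ← hC, Ideal.map_span, Set.image_singleton]
  have hsB : algebraMap (𝓞 F) (𝓞 L) s * B ∈ Ideal.span {algebraMap (𝓞 F) (𝓞 L) a} := by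
    rw [hmap, mul_comm (Ideal.map _ A)]
    refine Ideal.mul_mem_mul (Ideal.mem_map_of_mem _ hsC) ?_
    rw [← hBA]
    exact Ideal.mem_span_singleton_self B
  obtain ⟨x, hx⟩ := Ideal.mem_span_singleton.1 hsB
  have ha'0 : algebraMap (𝓞 F) (𝓞 L) a ≠ 0 := fun h0 => ha0 (hinj (by rw [h0, map_zero]))
  have hmA0 : Ideal.map (algebraMap (𝓞 F) (𝓞 L)) A ≠ 0 := by
    rw [← hBA, Ideal.zero_eq_bot, Ne, Ideal.span_singleton_eq_bot]
    exact hB
  have hspan : Ideal.map (algebraMap (𝓞 F) (𝓞 L)) C * Ideal.span {x} =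
      Ideal.span {algebraMap (𝓞 F) (𝓞 L) s} := by
    refine mul_left_cancel₀ hmA0 ?_
    rw [← mul_assoc, ← hmap, Ideal.span_singleton_mul_span_singleton, ← hx,
      ← Ideal.span_singleton_mul_span_singleton, hBA, mul_comm]
  have hxQ : x ∉ Q := by
    intro hxQ
    refine hsl ?_
    rw [hl]
    change algebraMap (𝓞 F) (𝓞 L) s ∈ Q
    have h1 : algebraMap (𝓞 F) (𝓞 L) s ∈ Ideal.map (algebraMap (𝓞 F) (𝓞 L)) C *
        Ideal.span {x} := by
      rw [hspan]
      exact Ideal.mem_span_singleton_self _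
    have h2 : Ideal.map (algebraMap (𝓞 F) (𝓞 L)) C * Ideal.span {x} ≤ Q := by
      refine le_trans (le_trans Ideal.mul_le_inf inf_le_right) ?_
      rw [Ideal.span_singleton_le_iff_mem]
      exact hxQ
    exact h2 h1
  -- the action of the automorphism
  have hco : ∀ y : 𝓞 F, ((algebraMap (𝓞 F) (𝓞 L) y : 𝓞 L) : L) = algebraMap F L (y : F) := by
    intro y
    exact (IsScalarTower.algebraMap_apply (𝓞 F) (𝓞 L) L y).symm.trans
      (IsScalarTower.algebraMap_apply (𝓞 F) F L y)
  have hxL : algebraMap F L (s : F) * (B : L) = algebraMap F L (a : F) * (x : L) := by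
    have h1 := congrArg (fun t : 𝓞 L => (t : L)) hx
    simp only [map_mul, hco] at h1
    exact h1
  have hσx : σ (x : L) = algebraMap F L (z : F) * (x : L) := by
    have h1 := congrArg σ hxL
    rw [map_mul, map_mul, AlgEquiv.commutes, AlgEquiv.commutes, hσ] at h1
    have h2 : algebraMap F L (a : F) ≠ 0 := by
      intro h0
      apply ha'0
      have h3 : ((algebraMap (𝓞 F) (𝓞 L) a : 𝓞 L) : L) = 0 := by rw [hco, h0]
      exact RingOfIntegers.coe_eq_zero_iff.1 h3
    refine mul_left_cancel₀ h2 ?_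
    rw [← h1]
    have h3 : algebraMap F L (s : F) * (algebraMap F L (z : F) * (B : L)) =
        algebraMap F L (z : F) * (algebraMap F L (s : F) * (B : L)) := by ring
    rw [h3, hxL]
    ring
  refine ⟨x, (algebraMap (𝓞 F) (𝓞 L) z - 1) * x, ?_, fun hm => ?_⟩
  · rw [hσx]
    have h1 : (((algebraMap (𝓞 F) (𝓞 L) z - 1) * x : 𝓞 L) : L) =
        (((algebraMap (𝓞 F) (𝓞 L) z : 𝓞 L) : L) - 1) * (x : L) := by
      simp only [map_mul, map_sub, map_one]
    rw [h1, hco]
    ring
  · rcases hQ.mem_or_mem hm with h1 | h1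
    · exact hz1 h1
    · exact hxQ h1

end Pool.Agent.H51.RCN
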